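import Pool.Agent.Lib.MP_09eaec_ag.GG.Main
import Pool.Agent.Lib.MP_09eaec_ag.BG.MainBG
import Pool.Agent.Lib.MP_09eaec_ag.G3.MainG3

/-!
# Minimal degree of stable coherent systems with at least `(g - 1) n` sections
-/

set_option autoImplicit false

namespace Pool.Agent.Results.MP_09eaec_ag.AllGenera

open Pool.Agent.MP_09eaec

universe u v

theorem result {k : Type u} {K : Type v} [Field k] [Field K] [Algebra k K] [IsAlgClosed k]
    [CharZero k] (hK : IsCurveField k K) {g : ℤ} (hg2 : 2 ≤ g) (hg : IsGenus k K g)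
    {n d : ℕ} (hn : 2 ≤ n) :
    (g * n ≤ d → IsLeast (stableDegrees k K n d) (d + (g - 1) * n)) ∧
    ((g - 1) * n < d → (d : ℤ) < g * n →
      IsLeast (stableDegrees k K n d) (d + (g - 3) * n + ⌈(d : ℚ) / (g - 1)⌉)) ∧
    (3 ≤ g → (d : ℤ) = (g - 1) * n → IsLeast (stableDegrees k K n d) ((2 * g - 3) * n + 1)) :=
  ⟨fun h => GG.isLeast_high hK hg2 hg hn h, fun h1 h2 => GG.BG.isLeast_all hK hg2 hg hn h1 h2,
    fun h1 h2 => GG.G3.isLeast_top hK h1 hg hn h2⟩

end Pool.Agent.Results.MP_09eaec_ag.AllGenera
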