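import Pool.Agent.Lib.MP_09eaec_ag.GG.Main
import Pool.Agent.Lib.MP_09eaec_ag.BG.MainBG
import Pool.Agent.Lib.MP_09eaec_ag.G3.MainG3

/-!
# Minimal degree of stable coherent systems on curves of genus three
-/

set_option autoImplicit false

namespace Pool.Agent.Results.MP_09eaec_ag.GenusThree

open Pool.Agent.MP_09eaec

universe u v

theorem result {k : Type u} {K : Type v} [Field k] [Field K] [Algebra k K] [IsAlgClosed k]
    [CharZero k] (hK : IsCurveField k K) (hg : IsGenus k K 3) {n d : ℕ} (hn : 2 ≤ n) :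
    (n < d → 3 * d ≤ 4 * n → IsLeast (stableDegrees k K n d) (3 * d - 2 * n)) ∧
    (4 * n ≤ 3 * d → d < 3 * n → d ≠ 2 * n → ¬ (n = 2 ∧ d = 3) →
      IsLeast (stableDegrees k K n d) (d + ⌈(d : ℚ) / 2⌉)) ∧
    IsLeast (stableDegrees k K 2 3) 4 ∧
    IsLeast (stableDegrees k K n (2 * n)) (3 * n + 1) ∧
    (3 * n ≤ d → IsLeast (stableDegrees k K n d) (d + 2 * n)) := by
  refine ⟨fun h1 h2 => GG.G3.isLeast_low3 hK hg hn h1 h2, fun h1 h2 h3 h4 => ?_,
    GG.G3.isLeast_23 hK hg, ?_, fun h => ?_⟩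
  · rcases lt_or_gt_of_ne h3 with h5 | h5
    · exact GG.G3.isLeast_mid3 hK hg hn h1 h5 h4
    · have h6 := GG.BG.isLeast_all hK (by norm_num) hg hn (d := d) (by omega) (by omega)
      have h7 : (d : ℤ) + (3 - 3) * n + ⌈(d : ℚ) / (((3 : ℤ) : ℚ) - 1)⌉ =
          d + ⌈(d : ℚ) / 2⌉ := by
        norm_num
      rwa [h7] at h6
  · have h5 := GG.G3.isLeast_top hK (by norm_num) hg hn (d := 2 * n) (by push_cast; ring)
    have h6 : (2 * 3 - 3 : ℤ) * n + 1 = 3 * n + 1 := by ring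
    rwa [h6] at h5
  · have h5 := GG.isLeast_high hK (by norm_num) hg hn (d := d) (by omega)
    have h6 : (d : ℤ) + (3 - 1) * n = d + 2 * n := by ring
    rwa [h6] at h5

end Pool.Agent.Results.MP_09eaec_ag.GenusThree
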