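import Pool.Agent.Lib.MP_09eaec_ag.HE.AllRanks2

/-!
# Minimal degree of stable coherent systems on hyperelliptic curves

`C` is hyperelliptic of genus `g` and `d = j n + v` is the number of sections, `1 ≤ j ≤ g - 2`,
`1 ≤ v ≤ n`, `u = n - v`.
-/

set_option autoImplicit false

namespace Pool.Agent.Results.MP_09eaec_ag.HyperellipticAllRanks

open Pool.Agent.MP_09eaec

universe u v

theorem result {k : Type u} {K : Type v} [Field k] [Field K] [Algebra k K] [IsAlgClosed k]
    [CharZero k] (hK : IsCurveField k K) {g : ℤ} (hg : IsGenus k K g) (hgon : gon k K 1 = 2)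
    {n d j : ℕ} {u v q a t y φ m : ℤ} (hn : 2 ≤ n) (hj : 1 ≤ j) (hjg : (j : ℤ) ≤ g - 2)
    (hd : (d : ℤ) = j * n + v) (hv : 1 ≤ v) (hu : 0 ≤ u) (huv : u = n - v)
    (hq : q = v ^ 2 - (j - 1) * n * u) (ha : a = ⌈(v : ℚ) / j⌉)
    (ht : t = max (n - g * a + (j * a - v))
      (⌈((a : ℚ) - 1) * j * n / v⌉ - 1 - g * (a - 1)))
    (hy : y = ⌈((n : ℚ) - (j + 1) * u) / j⌉)
    (hφ : φ = (g - (j + 1)) * ⌊(u : ℚ) / (j + 1)⌋ + u)
    (hm : m = if 0 < y then min (2 * y) (y + g - 1 - j) else 1) :
    ∃ e, IsLeast (stableDegrees k K n d) e ∧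
      if u = 0 then e = (2 * j + 1) * n + 1
      else if g * v < j * n then e = 2 * j * n - max 0 t
      else if q ≤ 1 ∨ j = 1 ∧ g * v = n then e = 2 * j * n
      else 2 * j * n + max 1 (min m (n - φ)) ≤ e ∧ e ≤ 2 * j * n + max 1 (n - φ) ∧
        (u ≤ j + 1 → e = 2 * j * n + max 1 (min m (n - φ))) ∧
        (j = 1 → e = 2 * n + max 1 (n - φ)) := by
  obtain ⟨inst, rfl⟩ := GG.curveG_of_isGenus hK (by omega) hg
  obtain ⟨H, x, z, hp⟩ := GG.exists_pencil (k := k) (K := K) hgon
  obtain ⟨u', rfl⟩ : ∃ u' : ℕ, u = u' := ⟨u.toNat, (Int.toNat_of_nonneg hu).symm⟩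
  obtain ⟨v', rfl⟩ : ∃ v' : ℕ, v = v' := ⟨v.toNat, (Int.toNat_of_nonneg (by omega)).symm⟩
  have hj0 : (0 : ℚ) < j := by exact_mod_cast (by omega : 0 < j)
  have hv0 : (0 : ℚ) < (v' : ℤ) := by exact_mod_cast (by omega : (0 : ℤ) < v')
  have hd1 : d = j * n + v' := by exact_mod_cast hd
  have hn1 : (u' : ℤ) + v' = n := by linarith
  have hn1' : u' + v' = n := by exact_mod_cast hn1
  have hd2 : d + u' = (j + 1) * n := by rw [hd1, add_mul, one_mul]; omega
  have e2 : (n : ℤ) - u' = v' := by linarith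
  have hbd := fun {e : ℤ} (he : e ∈ stableDegrees k K n d) =>
    GG.he_bounds hp hn hj (by omega) hd1 (by omega) hn1' he
  rw [← hq] at hbd
  -- `y`
  have hy1 : j * (y - 1) < n - (j + 1) * (u' : ℤ) := by
    have h1 : (y : ℚ) - 1 < ((n : ℚ) - (j + 1) * u') / j := by
      have := Int.ceil_lt_add_one (((n : ℚ) - (j + 1) * (u' : ℤ)) / j)
      rw [← hy] at this
      push_cast at this
      linarith
    rw [lt_div_iff₀ hj0] at h1
    have h2 : (((j * (y - 1) : ℤ)) : ℚ) < ((n - (j + 1) * (u' : ℤ) : ℤ) : ℚ) := by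
      push_cast
      linarith
    exact_mod_cast h2
  have hy2 : (n : ℤ) ≤ (j + 1) * u' + j * y := by
    have h1 : ((n : ℚ) - (j + 1) * u') / j ≤ y := by
      have := Int.le_ceil (((n : ℚ) - (j + 1) * (u' : ℤ)) / j)
      rw [← hy] at this
      push_cast at this
      exact this
    rw [div_le_iff₀ hj0] at h1
    have h2 : ((n : ℤ) : ℚ) ≤ (((j + 1) * (u' : ℤ) + j * y : ℤ) : ℚ) := by
      push_cast
      linarith
    exact_mod_cast h2
  by_cases i1 : (u' : ℤ) = 0
  · simp only [if_pos i1]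
    have h2 : d = (j + 1) * n := by omega
    rw [h2]
    exact ⟨_, GG.he_mult hp hn hj (by omega), rfl⟩
  simp only [if_neg i1]
  by_cases i2 : GG.gen k K * (v' : ℤ) < j * n
  · -- the ramps
    simp only [if_pos i2]
    refine ⟨_, ?_, rfl⟩
    rw [hd1]
    have ha1 : j * (a - 1) < (v' : ℤ) := by
      have h1 : (a : ℚ) - 1 < (v' : ℤ) / j := by
        have := Int.ceil_lt_add_one (((v' : ℤ) : ℚ) / j)
        rw [← ha] at this
        linarith
      rw [lt_div_iff₀ hj0] at h1
      have h2 : (((j * (a - 1) : ℤ)) : ℚ) < ((v' : ℤ) : ℚ) := by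
        push_cast
        push_cast at h1
        linarith
      exact_mod_cast h2
    have ha2 : (v' : ℤ) ≤ j * a := by
      have h1 : ((v' : ℤ) : ℚ) / j ≤ a := by
        have := Int.le_ceil (((v' : ℤ) : ℚ) / j)
        rw [← ha] at this
        exact this
      rw [div_le_iff₀ hj0] at h1
      have h2 : ((v' : ℤ) : ℚ) ≤ ((j * a : ℤ) : ℚ) := by
        push_cast
        push_cast at h1
        linarith
      exact_mod_cast h2
    obtain ⟨T, hT⟩ : ∃ T : ℤ, T = ⌈((a : ℚ) - 1) * j * n / (v' : ℤ)⌉ - 1 -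
      GG.gen k K * (a - 1) := ⟨_, rfl⟩
    rw [← hT] at ht
    have hT1 : v' * (T + GG.gen k K * (a - 1)) < (a - 1) * j * n := by
      have h1 : ((T + GG.gen k K * (a - 1) : ℤ) : ℚ) < ((a : ℚ) - 1) * j * n / (v' : ℤ) := by
        have := Int.ceil_lt_add_one (((a : ℚ) - 1) * j * n / (v' : ℤ))
        have e3 : T + GG.gen k K * (a - 1) = ⌈((a : ℚ) - 1) * j * n / (v' : ℤ)⌉ - 1 := by
          rw [hT]; ring
        rw [e3]
        push_cast
        push_cast at this
        linarith
      rw [lt_div_iff₀ hv0] at h1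
      have h2 : ((v' * (T + GG.gen k K * (a - 1)) : ℤ) : ℚ) < (((a - 1) * j * n : ℤ) : ℚ) := by
        push_cast
        push_cast at h1
        linarith
      exact_mod_cast h2
    have hT2 : (a - 1) * j * n ≤ v' * (T + 1 + GG.gen k K * (a - 1)) := by
      have h1 : ((a : ℚ) - 1) * j * n / (v' : ℤ) ≤ ((T + 1 + GG.gen k K * (a - 1) : ℤ) : ℚ) := by
        have := Int.le_ceil (((a : ℚ) - 1) * j * n / (v' : ℤ))
        have e3 : T + 1 + GG.gen k K * (a - 1) = ⌈((a : ℚ) - 1) * j * n / (v' : ℤ)⌉ := by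
          rw [hT]; ring
        rw [e3]
        exact this
      rw [div_le_iff₀ hv0] at h1
      have h2 : (((a - 1) * j * n : ℤ) : ℚ) ≤ ((v' * (T + 1 + GG.gen k K * (a - 1)) : ℤ) : ℚ) := by
        push_cast
        push_cast at h1
        linarith
      exact_mod_cast h2
    rw [ht]
    exact GG.he_ramp hp hj (by omega) (by omega) i2 ha1 ha2 hT1 hT2
  simp only [if_neg i2]
  push Not at i2
  by_cases i3 : q ≤ 1 ∨ j = 1 ∧ GG.gen k K * (v' : ℤ) = n
  · simp only [if_pos i3]
    refine ⟨_, ?_, rfl⟩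
    rcases i3 with i3 | ⟨i3, i4⟩
    · -- the plateaus
      refine ⟨?_, fun e he => (hbd he).1 (by omega)⟩
      refine GG.upper_plateau hp (by omega) hj (by omega) (by omega)
        (by rw [add_mul, one_mul]; omega) ?_
      have hq' : (n : ℤ) ^ 2 + (d : ℤ) ^ 2 - (j + 1) * n * d =
          (v' : ℤ) ^ 2 - (j - 1) * n * u' := by
        have e3 : (u' : ℤ) = n - v' := by linarith
        rw [hd, e3]
        ring
      linarith
    · subst i3
      have h1 := GG.he_boundary hp (n := n) (d := d) (v := v') (u := u') hn (by omega)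
        (by rw [hd1, one_mul]) (by omega) hn1' i4.symm
      rw [Nat.cast_one, mul_one]
      exact h1
  simp only [if_neg i3]
  push Not at i3
  obtain ⟨i3, i4⟩ := i3
  -- the upper strip
  have hfloor : ⌊((u' : ℤ) : ℚ) / (j + 1)⌋ = ((u' / (j + 1) : ℕ) : ℤ) := by
    have := Rat.floor_intCast_div_natCast (u' : ℤ) (j + 1)
    push_cast at this ⊢
    exact this
  rw [hfloor] at hφ
  obtain ⟨c0, hc0⟩ : ∃ c0 : ℕ, c0 = u' / (j + 1) := ⟨_, rfl⟩
  obtain ⟨r0, hr0⟩ : ∃ r0 : ℕ, r0 = u' % (j + 1) := ⟨_, rfl⟩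
  have hcr : (j + 1) * c0 + r0 = u' := by rw [hc0, hr0]; exact Nat.div_add_mod u' (j + 1)
  have hr0j : r0 < j + 1 := by rw [hr0]; exact Nat.mod_lt _ (by omega)
  rw [← hc0] at hφ
  have hcrZ : ((j : ℤ) + 1) * c0 + r0 = u' := by exact_mod_cast hcr
  have hφ' : φ = GG.gen k K * c0 + r0 := by rw [hφ, ← hcrZ]; ring
  have hu1 : 1 ≤ u' := by omega
  have hlow : ∀ e ∈ stableDegrees k K n d, 2 * j * n + max 1 (min m (n - φ)) ≤ e := by
    intro e he
    have h1 : 2 * j * n + 1 ≤ e := GG.he_top hp hn hj (by omega) hd1 (by omega) hn1' i2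
      (fun h h' => i4 h h'.symm) (by rw [← hq]; exact i3) he
    by_cases hy0 : 0 < y
    · rw [if_pos hy0] at hm
      have h2 := GG.he_lower_phi hp (c0 := c0) (y0 := y) hn hj (by omega)
        (by rw [mul_add, mul_one]; omega) hd2 (by omega) hy1 he
      rw [← hφ, ← hm] at h2
      rcases le_total 1 (min m (n - φ)) with h3 | h3
      · rw [max_eq_right h3]; exact h2
      · rw [max_eq_left h3]; exact h1
    · rw [if_neg hy0] at hm
      have h3 : min m (n - φ) ≤ 1 := by rw [hm]; exact min_le_left _ _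
      rw [max_eq_left h3]; exact h1
  have hup : u' ≤ j ∨ (2 * j * n + max 1 (n - φ) : ℤ) ∈ stableDegrees k K n d := by
    rcases Nat.eq_zero_or_pos c0 with h0 | h0
    · left
      rw [h0, mul_zero] at hcr
      omega
    · right
      have := GG.he_upper_phi hp (n := n) (d := d) (j := j) (c := c0) (u0 := r0) hn hj
        (by omega) h0 (by omega) (by rw [hcr]; exact hd2)
      rw [← hφ'] at this
      exact this
  have hex : u' ≤ j + 1 → IsLeast (stableDegrees k K n d)
      (2 * j * n + max 1 (min m (n - φ))) := by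
    intro huj
    refine ⟨?_, fun e he => hlow e he⟩
    by_cases hy0 : 0 < y
    swap
    · rw [if_neg hy0] at hm
      have h3 : min m (n - φ) ≤ 1 := by rw [hm]; exact min_le_left _ _
      rw [max_eq_left h3]
      refine GG.he_upper_F0 hp (by omega) (by omega) hu1 huj ?_ hd2
      have h4 : (j : ℤ) * y ≤ 0 := mul_nonpos_of_nonneg_of_nonpos (by omega) (by omega)
      have h5 : (n : ℤ) ≤ (j + 1) * u' := by linarith
      exact_mod_cast h5
    rw [if_pos hy0] at hm
    rcases Nat.lt_or_ge j u' with h1 | h1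
    · -- `u = j + 1`
      have hm2 : 2 ≤ m := by
        rw [hm]
        exact le_min (by omega) (by omega)
      rcases le_or_gt (n - φ) m with h2 | h2
      · rw [min_eq_right h2]
        exact hup.resolve_left (by omega)
      · rw [min_eq_left h2.le, max_eq_right (by omega)]
        obtain ⟨y1, hy1'⟩ : ∃ y1 : ℕ, y = y1 := ⟨y.toNat, (Int.toNat_of_nonneg (by omega)).symm⟩
        have hny : n ≤ (j + 1) * u' + j * y1 := by
          rw [hy1'] at hy2
          exact_mod_cast hy2
        rcases le_or_gt (y + j + 1) (GG.gen k K) with h3 | h3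
        · rw [hm, min_eq_left (by omega), hy1']
          exact GG.he_upper_F hp (u := u') (by omega) (by omega) hu1 huj (by omega) hny hd2
        · rw [hm, min_eq_right (by omega)]
          obtain ⟨t1, ht1⟩ : ∃ t1 : ℕ, (t1 : ℤ) = y + GG.gen k K - 1 - j :=
            ⟨(y + GG.gen k K - 1 - j).toNat, Int.toNat_of_nonneg (by omega)⟩
          rw [← ht1]
          exact GG.he_upper_G hp (u := u') (y0 := y1) (by omega) (by omega) hu1 huj (by omega)
            hny hd2 (by omega)
    · -- `u ≤ j`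
      have h2 := (GG.he_F_all hp hj (by omega) (by omega) h1 hd2 (by omega) hy1 hy2).1
      have h3 : c0 = 0 := by rw [hc0]; exact Nat.div_eq_of_lt (by omega)
      have h4 : φ = u' := by rw [hφ, h3]; push_cast; ring
      rw [h4, hm, max_eq_right]
      · exact h2
      · exact le_min (le_min (by omega) (by omega)) (by omega)
  -- the least element
  obtain ⟨e, he⟩ : ∃ e, IsLeast (stableDegrees k K n d) e := by
    rcases hup with h1 | h1
    · exact ⟨_, hex (by omega)⟩
    · obtain ⟨e, h2, h3⟩ := Int.exists_least_of_bdd ⟨_, hlow⟩ ⟨_, h1⟩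
      exact ⟨e, h2, fun e' he' => h3 e' he'⟩
  have hle : e ≤ 2 * j * n + max 1 (n - φ) := by
    rcases hup with h1 | h1
    · have h2 := (hex (by omega)).1
      refine (he.2 h2).trans ?_
      exact add_le_add le_rfl (max_le_max le_rfl (min_le_right _ _))
    · exact he.2 h1
  refine ⟨e, he, hlow e he.1, hle, fun h => he.unique (hex (by omega)), fun h => ?_⟩
  subst h
  have hc4 : GG.gen k K = 3 ∨ 4 * (c0 : ℤ) ≤ GG.gen k K * c0 := by
    rcases le_or_gt 4 (GG.gen k K) with h | h
    · exact Or.inr (mul_le_mul_of_nonneg_right h (by positivity))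
    · exact Or.inl (by omega)
  rcases hc4 with hg3 | hc4
  · have hg' : IsGenus k K 3 := by rw [← hg3]; exact hg
    rw [hg3] at hφ' i2
    push_cast at hd hq i2 hcrZ
    have h1 : (n : ℤ) < 3 * v' ∨ (n : ℤ) = 3 * v' := by omega
    have h23 : ¬ (n = 2 ∧ d = 3) := by
      rintro ⟨h2, h3⟩
      have h4 : (v' : ℤ) = 1 := by omega
      rw [h4] at hq
      norm_num at hq
      omega
    have h2 := GG.G3.isLeast_mid3 hK hg' (n := n) (d := d) hn (by omega) (by omega) h23
    rw [he.unique h2]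
    have h3 : ⌈(d : ℚ) / 2⌉ = n - c0 := by
      have h4 : (d : ℤ) = 2 * n - 2 * c0 - r0 := by linarith
      have h5 : (d : ℚ) = 2 * n - 2 * c0 - r0 := by exact_mod_cast h4
      rw [Int.ceil_eq_iff, h5]
      have h6 : (r0 : ℚ) ≤ 1 := by exact_mod_cast (by omega : r0 ≤ 1)
      have h7 : (0 : ℚ) ≤ r0 := by positivity
      push_cast
      constructor <;> linarith
    rw [h3]
    have h8 : 1 ≤ (n : ℤ) - φ := by
      rw [hφ']
      rcases h1 with h1 | h1
      · omega
      · exact absurd (by rw [hg3]; exact h1.symm) (i4 rfl)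
    rw [max_eq_right h8, hφ']
    push_cast at hd2
    omega
  · have h1 := hlow e he.1
    have h2 : max 1 (min m (n - φ)) = max 1 (n - φ) := by
      rcases le_or_gt (n - φ) 1 with h3 | h3
      · rw [max_eq_left h3, max_eq_left ((min_le_right _ _).trans h3)]
      · rw [min_eq_right]
        push_cast at hy1 hy2 hcrZ
        rw [hφ']
        rw [hφ'] at h3
        by_cases hy0 : 0 < y
        · rw [if_pos hy0] at hm
          rw [hm]
          push_cast
          exact le_min (by omega) (by omega)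
        · omega
    rw [h2] at h1
    refine le_antisymm ?_ ?_
    · push_cast at hle
      linarith
    · push_cast at h1
      linarith

end Pool.Agent.Results.MP_09eaec_ag.HyperellipticAllRanks
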