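import Pool.Agent.Lib.MP_09eaec_ag.StableII

/-!
# The minimal degree of stable coherent systems with `n + 1` sections

For every smooth projective curve `C` over an algebraically closed field of characteristic zero and
every `n ≥ 2`, the smallest degree `d_0(n, n+1)` of an `α`-stable coherent system of type
`(n, d, n+1)`, for some real `α > 0`, is

  `min (d_n, 1 + min_{1 ≤ r < n} ⌊n d_r / r⌋)`,

where `d_r` is the `r`-th term of the gonality sequence of `C`.
-/

set_option autoImplicit false

namespace Pool.Agent.Results.MP_09eaec_ag.NPlusOneSections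

open Pool.Agent.MP_09eaec

universe u v

variable {k : Type u} {K : Type v} [Field k] [Field K] [Algebra k K] [IsAlgClosed k] [CharZero k]

/-- **Main theorem.** -/
theorem result (hK : IsCurveField k K) (n : ℕ) (hn : 2 ≤ n) :
    IsLeast (stableDegrees k K n (n + 1))
      (min (gon k K n)
        (1 + (Finset.Ico 1 n).inf' (Finset.nonempty_Ico.2 hn)
          (fun r : ℕ => ((n : ℤ) * gon k K r) / (r : ℤ)))) := by
  set X : ℤ := (Finset.Ico 1 n).inf' (Finset.nonempty_Ico.2 hn)
    (fun r : ℕ => ((n : ℤ) * gon k K r) / (r : ℤ)) with hX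
  constructor
  · -- existence
    by_cases hcase : gon k K n ≤ 1 + X
    · rw [min_eq_left hcase]
      exact gon_mem_stableDegrees hK (by omega)
    push Not at hcase
    rw [min_eq_right hcase.le]
    obtain ⟨r0, hr0, hr0X⟩ := Finset.exists_mem_eq_inf' (Finset.nonempty_Ico.2 hn)
      (fun r : ℕ => ((n : ℤ) * gon k K r) / (r : ℤ))
    rw [← hX] at hr0X
    rw [Finset.mem_Ico] at hr0
    have hr0pos : (0 : ℤ) < r0 := by exact_mod_cast (show 0 < r0 by omega)
    -- the last index minimising `d_t / t`
    have hmin1 : ∃ t ∈ Finset.Icc 1 n, ∀ t' ∈ Finset.Icc 1 n,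
        ((gon k K t : ℤ) : ℚ) / t ≤ ((gon k K t' : ℤ) : ℚ) / t' :=
      Finset.exists_min_image (Finset.Icc 1 n) (fun t : ℕ => ((gon k K t : ℤ) : ℚ) / t)
        ⟨1, Finset.mem_Icc.2 ⟨le_refl 1, by omega⟩⟩
    obtain ⟨S, hSmem⟩ : ∃ S : Finset ℕ, ∀ t, t ∈ S ↔ t ∈ Finset.Icc 1 n ∧
        ∀ t' ∈ Finset.Icc 1 n, ((gon k K t : ℤ) : ℚ) / t ≤ ((gon k K t' : ℤ) : ℚ) / t' := by
      have hf : {t : ℕ | t ∈ Finset.Icc 1 n ∧ ∀ t' ∈ Finset.Icc 1 n,
          ((gon k K t : ℤ) : ℚ) / t ≤ ((gon k K t' : ℤ) : ℚ) / t'}.Finite :=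
        (Finset.finite_toSet (Finset.Icc 1 n)).subset fun t ht => ht.1
      exact ⟨hf.toFinset, fun t => hf.mem_toFinset⟩
    have hSne : S.Nonempty := by
      obtain ⟨t, ht, ht'⟩ := hmin1
      exact ⟨t, (hSmem t).2 ⟨ht, ht'⟩⟩
    set r := S.max' hSne with hr
    have hrS : r ∈ S := S.max'_mem hSne
    obtain ⟨hrI, hrmin⟩ := (hSmem r).1 hrS
    rw [Finset.mem_Icc] at hrI
    have hr1 : 1 ≤ r := hrI.1
    have hrq : (0 : ℚ) < r := by exact_mod_cast (show 0 < r by omega)
    have hrpos : (0 : ℤ) < r := by exact_mod_cast (show 0 < r by omega)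
    have hmin : ∀ t : ℕ, 1 ≤ t → t ≤ n → gon k K r * t ≤ gon k K t * r := by
      intro t ht1 htn
      have h1 := hrmin t (Finset.mem_Icc.2 ⟨ht1, htn⟩)
      have htq : (0 : ℚ) < t := by exact_mod_cast (show 0 < t by omega)
      rw [div_le_div_iff₀ hrq htq] at h1
      exact_mod_cast h1
    have hmax : ∀ t : ℕ, r < t → t ≤ n → gon k K r * t < gon k K t * r := by
      intro t htr htn
      have h1 := hmin t (by omega) htn
      rcases h1.lt_or_eq with h2 | h2
      · exact h2
      · exfalso
        have htq : (0 : ℚ) < t := by exact_mod_cast (show 0 < t by omega)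
        have h3 : ((gon k K t : ℤ) : ℚ) / t = ((gon k K r : ℤ) : ℚ) / r := by
          rw [div_eq_div_iff htq.ne' hrq.ne']
          exact_mod_cast h2.symm
        have h4 : t ∈ S := by
          refine (hSmem t).2 ⟨Finset.mem_Icc.2 ⟨by omega, htn⟩, ?_⟩
          intro t' ht'
          rw [h3]; exact hrmin t' ht'
        have h5 := S.le_max' t h4
        omega
    have hrn : r < n := by
      rcases hrI.2.lt_or_eq with h | h
      · exact h
      · exfalso
        have h1 := hmin r0 hr0.1 (by omega)
        have h2 := Int.lt_ediv_add_one_mul_self ((n : ℤ) * gon k K r0) hr0pos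
        rw [← hr0X] at h2
        have h3 : (X + 1) * r0 < gon k K n * r0 := by
          apply mul_lt_mul_of_pos_right _ hr0pos
          omega
        rw [h] at h1
        nlinarith
    obtain ⟨s, hs⟩ : ∃ s, n = r + s := ⟨n - r, by omega⟩
    have hs1 : 1 ≤ s := by omega
    have hsr : s < r := by
      by_contra hcon
      push Not at hcon
      have h1 := hmax (2 * r) (by omega) (by omega)
      have h2 := gon_two_mul_le hK (k := k) r
      push_cast at h1
      nlinarith
    have hgr : (r : ℤ) + 1 ≤ gon k K r := by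
      by_contra hcon
      push Not at hcon
      have h1 := le_gon hK (k := k) r hr1
      have h2 : gon k K r = r := by omega
      obtain ⟨q, hq⟩ : ∃ q, r = q + 1 := ⟨r - 1, by omega⟩
      have h3 := gon_one_le hK (k := k) q
      rw [← hq, h2] at h3
      have h4 : gon k K 1 ≤ 1 := by
        have : (r : ℤ) = q + 1 := by exact_mod_cast hq
        omega
      have h5 := gon_le_mul_gon_one hK (k := k) n
      have h6 : gon k K n ≤ n := by
        have : (n : ℤ) * gon k K 1 ≤ n * 1 := mul_le_mul_of_nonneg_left h4 (by positivity)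
        omega
      have h7 := hmax n hrn le_rfl
      rw [h2] at h7
      have h8 : gon k K n * r ≤ n * r := mul_le_mul_of_nonneg_right h6 hrpos.le
      nlinarith
    -- the degree
    set D : ℤ := (n : ℤ) * gon k K r / r with hD
    have hD1 := Int.lt_ediv_add_one_mul_self ((n : ℤ) * gon k K r) hrpos
    have hD2 := Int.ediv_mul_le ((n : ℤ) * gon k K r) hrpos.ne'
    rw [← hD] at hD1 hD2
    have hns : (n : ℤ) = r + s := by exact_mod_cast hs
    have hm1' : (s : ℤ) * gon k K r < (D + 1 - gon k K r) * r := by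
      rw [hns] at hD1
      nlinarith
    have hm2' : (D + 1 - gon k K r) * r ≤ s * gon k K r + r := by
      rw [hns] at hD2
      nlinarith
    have hpos : 0 ≤ D + 1 - gon k K r := by
      by_contra hcon
      push Not at hcon
      have h1 : (D + 1 - gon k K r) * r < 0 := mul_neg_of_neg_of_pos hcon hrpos
      have h2 : 0 ≤ (s : ℤ) * gon k K r := by
        apply mul_nonneg (by positivity) (gon_nonneg hK r)
      omega
    obtain ⟨m, hm⟩ := Int.eq_ofNat_of_zero_le hpos
    have hmem := stable_II hK (k := k) hs1 hsr hs hmin hgr m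
      (by rw [← hm]; exact hm1') (by rw [← hm]; exact hm2')
    have hXD : X = D := by
      apply le_antisymm
      · rw [hX]
        exact Finset.inf'_le _ (Finset.mem_Ico.2 ⟨hr1, hrn⟩)
      · rw [hr0X, Int.le_ediv_iff_mul_le hr0pos]
        have h1 := hmin r0 hr0.1 (by omega)
        have h2 : (D * r0) * r ≤ ((n : ℤ) * gon k K r0) * r := by
          have h3 : (D * r) * r0 ≤ ((n : ℤ) * gon k K r) * r0 :=
            mul_le_mul_of_nonneg_right hD2 hr0pos.le
          have h4 : (n : ℤ) * (gon k K r * r0) ≤ n * (gon k K r0 * r) :=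
            mul_le_mul_of_nonneg_left h1 (by positivity)
          nlinarith
        exact le_of_mul_le_mul_right h2 hrpos
    have hfin : gon k K r + (m : ℤ) = 1 + X := by
      rw [hXD, ← hm]; ring
    rw [← hfin]
    exact hmem
  · -- the lower bound
    rintro d ⟨α, hα, E, V, hsys, hV, rfl, hst⟩
    rcases lower_bound hK E V hsys hV α hα hst with h1 | ⟨r, hr1, hrn, h1⟩
    · exact le_trans (min_le_left _ _) h1
    · refine le_trans (min_le_right _ _) ?_
      have hrpos : (0 : ℤ) < r := by exact_mod_cast (show 0 < r by omega)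
      have h2 : X ≤ (n : ℤ) * gon k K r / r :=
        Finset.inf'_le _ (Finset.mem_Ico.2 ⟨hr1, hrn⟩)
      have h3 : (n : ℤ) * gon k K r / r < E.deg :=
        Int.ediv_lt_of_lt_mul hrpos (by linarith)
      omega

end Pool.Agent.Results.MP_09eaec_ag.NPlusOneSections
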